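import Mathlib
import Pool.Agent.Helper60.CrossFree.Main

/-!
Coverings of geometric graphs by crossing-free families: bookkeeping lemmas, double stars and
greedy matchings.
-/

set_option autoImplicit false

namespace Pool.Agent.Helper4.CFE

open Pool.Agent.Helper60.CrossFree

/-- the relation `R` is covered (up to order) by `k` crossing-free families of pairs of points
of `S` -/
def CovE (S : Finset Pt) (R : Pt → Pt → Prop) (k : ℕ) : Prop :=
  ∃ G : Fin k → Pt → Pt → Prop, (∀ i, NonCr (G i)) ∧ (∀ i u v, G i u v → u ∈ S ∧ v ∈ S) ∧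
    ∀ x y, R x y → ∃ i, G i x y ∨ G i y x

theorem CovE.of_fintype {S : Finset Pt} {R : Pt → Pt → Prop} {ι : Type*} [Fintype ι]
    (G : ι → Pt → Pt → Prop) (h1 : ∀ i, NonCr (G i)) (h2 : ∀ i u v, G i u v → u ∈ S ∧ v ∈ S)
    (h3 : ∀ x y, R x y → ∃ i, G i x y ∨ G i y x) : CovE S R (Fintype.card ι) := by
  refine ⟨fun i => G ((Fintype.equivFin ι).symm i), fun i => h1 _, fun i => h2 _, fun x y h => ?_⟩
  obtain ⟨i, hi⟩ := h3 x y h
  exact ⟨Fintype.equivFin ι i, by simpa using hi⟩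

theorem CovE.weaken {S S' : Finset Pt} {R R' : Pt → Pt → Prop} {k : ℕ} (h : CovE S R k)
    (hS : S ⊆ S') (hR : ∀ x y, R' x y → R x y ∨ R y x) : CovE S' R' k := by
  obtain ⟨G, h1, h2, h3⟩ := h
  refine ⟨G, h1, fun i u v h => ⟨hS (h2 i u v h).1, hS (h2 i u v h).2⟩, fun x y h => ?_⟩
  rcases hR x y h with h | h
  · exact h3 x y h
  · obtain ⟨i, hi⟩ := h3 y x h
    exact ⟨i, hi.symm⟩

theorem CovE.mono {S : Finset Pt} {R : Pt → Pt → Prop} {k k' : ℕ} (h : CovE S R k)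
    (hk : k ≤ k') : CovE S R k' := by
  obtain ⟨G, h1, h2, h3⟩ := h
  refine ⟨fun i u v => ∃ h : i.1 < k, G ⟨i.1, h⟩ u v, ?_, ?_, ?_⟩
  · rintro i u v u' v' ⟨h, hu⟩ ⟨h', hu'⟩
    exact h1 _ u v u' v' hu hu'
  · rintro i u v ⟨h, hu⟩
    exact h2 _ u v hu
  · intro x y h
    obtain ⟨i, hi⟩ := h3 x y h
    exact ⟨⟨i.1, by omega⟩, hi.imp (fun h => ⟨i.2, h⟩) (fun h => ⟨i.2, h⟩)⟩

theorem CovE.seq {S : Finset Pt} {R R' : Pt → Pt → Prop} {k k' : ℕ} (h : CovE S R k)
    (h' : CovE S R' k') : CovE S (fun x y => R x y ∨ R' x y) (k + k') := by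
  obtain ⟨G, h1, h2, h3⟩ := h
  obtain ⟨G', h1', h2', h3'⟩ := h'
  have hc : Fintype.card (Fin k ⊕ Fin k') = k + k' := by simp
  rw [← hc]
  refine CovE.of_fintype (fun i => match i with
    | Sum.inl j => G j
    | Sum.inr j => G' j) ?_ ?_ ?_
  · rintro (i | i)
    · exact h1 i
    · exact h1' i
  · rintro (i | i)
    · exact h2 i
    · exact h2' i
  · rintro x y (h | h)
    · obtain ⟨i, hi⟩ := h3 x y h
      exact ⟨Sum.inl i, hi⟩
    · obtain ⟨i, hi⟩ := h3' x y h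
      exact ⟨Sum.inr i, hi⟩

/-- coverings of two sets separated by a vertical line can be put together -/
theorem CovE.par {S T : Finset Pt} {R R' : Pt → Pt → Prop} {k : ℕ} (h : CovE S R k)
    (h' : CovE T R' k) (hST : ∀ p ∈ S, ∀ q ∈ T, p.1 < q.1) :
    CovE (S ∪ T) (fun x y => R x y ∨ R' x y) k := by
  obtain ⟨G, h1, h2, h3⟩ := h
  obtain ⟨G', h1', h2', h3'⟩ := h'
  have key : ∀ i u v u' v', G i u v → G' i u' v' → ¬ Cr u v u' v' := by
    intro i u v u' v' hu hu'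
    obtain ⟨a, b⟩ := h2 i u v hu
    obtain ⟨c, d⟩ := h2' i u' v' hu'
    exact nc_vert (hST u a u' c) (hST u a v' d) (hST v b u' c) (hST v b v' d)
  refine ⟨fun i u v => G i u v ∨ G' i u v, ?_, ?_, ?_⟩
  · rintro i u v u' v' (hu | hu) (hu' | hu')
    · exact h1 i u v u' v' hu hu'
    · exact Or.inr (key i u v u' v' hu hu')
    · exact Or.inr fun hc => key i u' v' u v hu' hu (Cr_symm hc)
    · exact h1' i u v u' v' hu hu'
  · rintro i u v (hu | hu)
    · exact ⟨Finset.mem_union_left _ (h2 i u v hu).1, Finset.mem_union_left _ (h2 i u v hu).2⟩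
    · exact ⟨Finset.mem_union_right _ (h2' i u v hu).1, Finset.mem_union_right _ (h2' i u v hu).2⟩
  · rintro x y (h | h)
    · obtain ⟨i, hi⟩ := h3 x y h
      exact ⟨i, hi.imp Or.inl Or.inl⟩
    · obtain ⟨i, hi⟩ := h3' x y h
      exact ⟨i, hi.imp Or.inr Or.inr⟩

theorem CovE.empty (S : Finset Pt) {R : Pt → Pt → Prop} (h : ∀ x y, ¬ R x y) : CovE S R 0 :=
  ⟨Fin.elim0, fun i => i.elim0, fun i => i.elim0, fun x y h' => absurd h' (h x y)⟩

/-- full stars -/
theorem CovE.stars {P : Finset Pt} (hP : GP P) {S U : Finset Pt} (hS : S ⊆ P) (hU : U ⊆ S) :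
    CovE S (fun x y => x ∈ U ∧ y ∈ S ∧ x ≠ y) U.card := by
  rw [← Fintype.card_coe]
  refine CovE.of_fintype (fun i u v => u = i.1 ∧ v ∈ S ∧ u ≠ v) ?_ ?_ ?_
  · rintro i u v u' v' ⟨rfl, hv, huv⟩ ⟨rfl, hv', huv'⟩
    exact same_centre hP (hS (hU i.2)) (hS hv) (hS hv') huv huv'
  · rintro i u v ⟨rfl, hv, -⟩
    exact ⟨hU i.2, hv⟩
  · rintro x y ⟨hx, hy, hxy⟩
    exact ⟨⟨x, hx⟩, Or.inl ⟨rfl, hy, hxy⟩⟩

/-- the double star with centres `w, z`: `w` is joined to the points below the line, `z` to the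
points above it -/
def DS (S : Finset Pt) (w z u v : Pt) : Prop :=
  (u = w ∧ v ∈ S ∧ (v = z ∨ det w z v < 0)) ∨ (u = z ∧ v ∈ S ∧ 0 < det w z v)

theorem DS_nonCr {P S : Finset Pt} (hP : GP P) (hS : S ⊆ P) {w z : Pt} (hw : w ∈ S) (hz : z ∈ S)
    (hwz : w ≠ z) : NonCr (DS S w z) := by
  have n1 : ∀ v, (v = z ∨ det w z v < 0) → w ≠ v := by
    rintro v (rfl | h) rfl
    · exact hwz rfl
    · rw [det_self13] at h; exact lt_irrefl _ h
  have n2 : ∀ v, 0 < det w z v → z ≠ v := by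
    rintro v h rfl
    rw [det_self23] at h; exact lt_irrefl _ h
  have key : ∀ v v', v ∈ S → v' ∈ S → (v = z ∨ det w z v < 0) → 0 < det w z v' →
      ¬ Cr w v z v' := by
    intro v v' hv hv' h h'
    rcases h with rfl | h
    · intro hc
      exact nc_same (p := v) (q := w) (r := v')
        (hP v (hS hz) w (hS hw) v' (hS hv') hwz.symm (n2 v' h')
          (fun e => by rw [← e, det_self13] at h'; exact lt_irrefl _ h')) (Cr_swap1 hc)
    · intro hc
      exact nc_touch2 hwz h' h (Cr_symm hc)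
  rintro u v u' v' (⟨rfl, hv, h⟩ | ⟨rfl, hv, h⟩) (⟨rfl, hv', h'⟩ | ⟨rfl, hv', h'⟩)
  · exact same_centre hP (hS hw) (hS hv) (hS hv') (n1 v h) (n1 v' h')
  · exact Or.inr (key v v' hv hv' h h')
  · exact Or.inr fun hc => key v' v hv' hv h' h (Cr_symm hc)
  · exact same_centre hP (hS hz) (hS hv) (hS hv') (n2 v h) (n2 v' h')

theorem CovE.dstars {P S : Finset Pt} (hP : GP P) (hS : S ⊆ P) (M : Finset (Pt × Pt))
    (hM : ∀ e ∈ M, e.1 ∈ S ∧ e.2 ∈ S ∧ e.1 ≠ e.2) :
    CovE S (fun x y => ∃ e ∈ M, DS S e.1 e.2 x y) M.card := by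
  rw [← Fintype.card_coe]
  refine CovE.of_fintype (fun i u v => DS S i.1.1 i.1.2 u v) ?_ ?_ ?_
  · intro i
    exact DS_nonCr hP hS (hM i.1 i.2).1 (hM i.1 i.2).2.1 (hM i.1 i.2).2.2
  · rintro i u v (⟨rfl, hv, -⟩ | ⟨rfl, hv, -⟩)
    · exact ⟨(hM i.1 i.2).1, hv⟩
    · exact ⟨(hM i.1 i.2).2.1, hv⟩
  · rintro x y ⟨e, he, h⟩
    exact ⟨⟨e, he⟩, Or.inl h⟩

/-- greedy matchings: every pair in `E` is dominated by a chosen pair with the same left or the
same right element -/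
theorem greedy (E : Pt → Pt → Prop) (s : Pt → Pt → ℝ) :
    ∀ (n : ℕ) (A B : Finset Pt), A.card = n → ∃ M : Finset (Pt × Pt),
      (∀ e ∈ M, e.1 ∈ A ∧ e.2 ∈ B ∧ E e.1 e.2) ∧
      (∀ e ∈ M, ∀ e' ∈ M, e.1 = e'.1 → e = e') ∧
      (∀ e ∈ M, ∀ e' ∈ M, e.2 = e'.2 → e = e') ∧
      ∀ a ∈ A, ∀ b ∈ B, E a b →
        (∃ b', (a, b') ∈ M ∧ s a b ≤ s a b') ∨ (∃ a', (a', b) ∈ M ∧ s a b ≤ s a' b) := by
  classical
  intro n
  induction n with
  | zero =>
    intro A B hA
    rw [Finset.card_eq_zero] at hA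
    subst hA
    exact ⟨∅, by simp, by simp, by simp, by simp⟩
  | succ n ih =>
    intro A B hA
    by_cases hne : ((A ×ˢ B).filter fun e => E e.1 e.2).Nonempty
    · obtain ⟨⟨a0, b0⟩, h0, hmax⟩ :=
        Finset.exists_max_image _ (fun e : Pt × Pt => s e.1 e.2) hne
      simp only [Finset.mem_filter, Finset.mem_product] at h0 hmax
      obtain ⟨M, hM1, hM2, hM3, hM4⟩ := ih (A.erase a0) (B.erase b0)
        (by rw [Finset.card_erase_of_mem h0.1.1, hA]; rfl)
      have na : ∀ e ∈ M, e.1 ≠ a0 := fun e he => (Finset.mem_erase.mp (hM1 e he).1).1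
      have nb : ∀ e ∈ M, e.2 ≠ b0 := fun e he => (Finset.mem_erase.mp (hM1 e he).2.1).1
      refine ⟨insert (a0, b0) M, ?_, ?_, ?_, ?_⟩
      · intro e he
        rcases Finset.mem_insert.mp he with rfl | he
        · exact ⟨h0.1.1, h0.1.2, h0.2⟩
        · exact ⟨Finset.mem_of_mem_erase (hM1 e he).1, Finset.mem_of_mem_erase (hM1 e he).2.1,
            (hM1 e he).2.2⟩
      · intro e he e' he' h
        rcases Finset.mem_insert.mp he with rfl | he <;>
          rcases Finset.mem_insert.mp he' with rfl | he'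
        · rfl
        · exact absurd h.symm (na e' he')
        · exact absurd h (na e he)
        · exact hM2 e he e' he' h
      · intro e he e' he' h
        rcases Finset.mem_insert.mp he with rfl | he <;>
          rcases Finset.mem_insert.mp he' with rfl | he'
        · rfl
        · exact absurd h.symm (nb e' he')
        · exact absurd h (nb e he)
        · exact hM3 e he e' he' h
      · intro a ha b hb hab
        have hm := hmax (a, b) ⟨⟨ha, hb⟩, hab⟩
        by_cases h1 : a = a0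
        · subst h1
          exact Or.inl ⟨b0, Finset.mem_insert_self _ _, hm⟩
        by_cases h2 : b = b0
        · subst h2
          exact Or.inr ⟨a0, Finset.mem_insert_self _ _, hm⟩
        rcases hM4 a (Finset.mem_erase.mpr ⟨h1, ha⟩) b (Finset.mem_erase.mpr ⟨h2, hb⟩) hab with
          ⟨b', h3, h4⟩ | ⟨a', h3, h4⟩
        · exact Or.inl ⟨b', Finset.mem_insert_of_mem h3, h4⟩
        · exact Or.inr ⟨a', Finset.mem_insert_of_mem h3, h4⟩
    · refine ⟨∅, by simp, by simp, by simp, ?_⟩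
      intro a ha b hb hab
      exact absurd ⟨(a, b), by simp [ha, hb, hab]⟩ hne

/-- slope of the line through two points -/
noncomputable def sl (p q : Pt) : ℝ := (q.2 - p.2) / (q.1 - p.1)

theorem sl_comm (p q : Pt) : sl p q = sl q p := by
  unfold sl
  rw [← neg_sub q.2 p.2, ← neg_sub q.1 p.1, neg_div_neg_eq]

theorem det_eq_sl {p q r : Pt} (h1 : q.1 ≠ p.1) (h2 : r.1 ≠ p.1) :
    det p q r = (q.1 - p.1) * (r.1 - p.1) * (sl p r - sl p q) := by
  have h1' : q.1 - p.1 ≠ 0 := sub_ne_zero.mpr h1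
  have h2' : r.1 - p.1 ≠ 0 := sub_ne_zero.mpr h2
  unfold det sl
  field_simp

/-- distinct first coordinates -/
def DX (P : Finset Pt) : Prop := ∀ p ∈ P, ∀ q ∈ P, p ≠ q → p.1 ≠ q.1

/-- `q`, `r` on the right of `p` -/
theorem det_neg_right {p q r : Pt} (h1 : p.1 < q.1) (h2 : p.1 < r.1) (h : sl p r < sl p q) :
    det p q r < 0 := by
  rw [det_eq_sl h1.ne' h2.ne']
  have a := sub_pos.mpr h1
  have b := sub_pos.mpr h2
  have c := sub_neg.mpr h
  exact mul_neg_of_pos_of_neg (mul_pos a b) c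

/-- `p`, `r` on the left of `q`: if the slope of `r q` is smaller then `r` is above -/
theorem det_pos_left {p q r : Pt} (h1 : p.1 < q.1) (h2 : r.1 < q.1) (h : sl r q < sl p q) :
    0 < det p q r := by
  have e : det p q r = det q r p := (det_rot p q r).symm
  rw [e, det_eq_sl h2.ne h1.ne, sl_comm q p, sl_comm q r]
  have a := sub_neg.mpr h1
  have b := sub_neg.mpr h2
  have c := sub_pos.mpr h
  exact mul_pos (mul_pos_of_neg_of_neg b a) c

/-- `p` left of `q` left of `r`: if the slope of `q r` is larger then `r` is above -/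
theorem det_pos_right {p q r : Pt} (h1 : p.1 < q.1) (h2 : q.1 < r.1) (h : sl p q < sl q r) :
    0 < det p q r := by
  have e : det p q r = det q r p := (det_rot p q r).symm
  rw [e, det_eq_sl h2.ne' h1.ne, sl_comm q p]
  have a := sub_neg.mpr h1
  have b := sub_pos.mpr h2
  have c := sub_neg.mpr h
  have : (r.1 - q.1) * (p.1 - q.1) < 0 := mul_neg_of_pos_of_neg b a
  exact mul_pos_of_neg_of_neg this c

/-- `r` left of `p` left of `q`: if the slope of `r p` is larger then `r` is below -/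
theorem det_neg_left {p q r : Pt} (h1 : p.1 < q.1) (h2 : r.1 < p.1) (h : sl p q < sl r p) :
    det p q r < 0 := by
  rw [det_eq_sl h1.ne' h2.ne, sl_comm p r]
  have a := sub_pos.mpr h1
  have b := sub_neg.mpr h2
  have c := sub_pos.mpr h
  have : (q.1 - p.1) * (r.1 - p.1) < 0 := mul_neg_of_pos_of_neg a b
  exact mul_neg_of_neg_of_pos this c

theorem sl_ne {P : Finset Pt} (hP : GP P) (hX : DX P) {p q r : Pt} (hp : p ∈ P) (hq : q ∈ P)
    (hr : r ∈ P) (h1 : p ≠ q) (h2 : p ≠ r) (h3 : q ≠ r) : sl p q ≠ sl p r := by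
  intro h
  refine hP p hp q hq r hr h1 h2 h3 ?_
  rw [det_eq_sl (hX q hq p hp h1.symm) (hX r hr p hp h2.symm), h, sub_self, mul_zero]

end Pool.Agent.Helper4.CFE
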