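import Mathlib
import Pool.Agent.Helper4.CFE.Basic

/-!
The pairs `x, y` each of which lies above a given line through the other: `|A|` such points need
about `0.618 |A|` crossing-free families.
-/

set_option autoImplicit false

namespace Pool.Agent.Helper4.CFE

open Pool.Agent.Helper60.CrossFree

/-- the pairs of points of `A`, each above the line through the other with the given slope -/
def E2 (A : Finset Pt) (l : Pt → ℝ) (x y : Pt) : Prop :=
  x ∈ A ∧ y ∈ A ∧ x.1 < y.1 ∧ l x < sl x y ∧ sl x y < l y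

open Classical in
/-- thresholds after the matching -/
noncomputable def newl (M : Finset (Pt × Pt)) (l : Pt → ℝ) (x : Pt) : ℝ :=
  if h : ∃ z, (x, z) ∈ M then sl x h.choose else l x

theorem newl_of {M : Finset (Pt × Pt)} {l : Pt → ℝ} {x z : Pt} (h : (x, z) ∈ M)
    (hM : ∀ e ∈ M, ∀ e' ∈ M, e.1 = e'.1 → e = e') : newl M l x = sl x z := by
  have h' : ∃ z, (x, z) ∈ M := ⟨z, h⟩
  have e := hM _ h'.choose_spec _ h rfl
  have e2 : h'.choose = z := congrArg Prod.snd e
  unfold newl
  rw [dif_pos h', e2]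

theorem newl_of_not {M : Finset (Pt × Pt)} {l : Pt → ℝ} {x : Pt} (h : ¬ ∃ z, (x, z) ∈ M) :
    newl M l x = l x := by
  unfold newl
  rw [dif_neg h]

theorem card_image_fst {M : Finset (Pt × Pt)}
    (hM : ∀ e ∈ M, ∀ e' ∈ M, e.1 = e'.1 → e = e') : (M.image Prod.fst).card = M.card :=
  Finset.card_image_of_injOn fun e he e' he' h => hM e he e' he' h

theorem card_image_snd {M : Finset (Pt × Pt)}
    (hM : ∀ e ∈ M, ∀ e' ∈ M, e.2 = e'.2 → e = e') : (M.image Prod.snd).card = M.card :=
  Finset.card_image_of_injOn fun e he e' he' h => hM e he e' he' h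

theorem step {P : Finset Pt} (hP : GP P) (hX : DX P) {A B : Finset Pt} (hA : A ⊆ P) (hB : B ⊆ P)
    (hAB : ∀ p ∈ A, ∀ q ∈ B, p.1 < q.1) (l : Pt → ℝ) (t : ℕ)
    (hrec : ∀ l', CovE A (E2 A l') t) :
    CovE (A ∪ B) (E2 (A ∪ B) l) (max (A.card + t) B.card) := by
  classical
  obtain ⟨M, hM1, hM2, hM3, hM4⟩ := greedy (fun x y => E2 (A ∪ B) l x y) sl A.card A B rfl
  have hS : A ∪ B ⊆ P := Finset.union_subset hA hB
  have c1 : M.card ≤ A.card := by
    rw [← card_image_fst hM2]
    refine Finset.card_le_card fun x hx => ?_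
    obtain ⟨e, he, rfl⟩ := Finset.mem_image.mp hx
    exact (hM1 e he).1
  have hsub : M.image Prod.snd ⊆ B := by
    intro x hx
    obtain ⟨e, he, rfl⟩ := Finset.mem_image.mp hx
    exact (hM1 e he).2.1
  have c2 : M.card ≤ B.card := by
    rw [← card_image_snd hM3]
    exact Finset.card_le_card hsub
  have c3 : (B \ M.image Prod.snd).card = B.card - M.card := by
    rw [Finset.card_sdiff_of_subset hsub, card_image_snd hM3]
  have C1 := CovE.dstars hP hS M fun e he =>
    ⟨Finset.mem_union_left B (hM1 e he).1, Finset.mem_union_right A (hM1 e he).2.1,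
      fun h => lt_irrefl e.1.1 (by
        have := hAB e.1 (hM1 e he).1 e.2 (hM1 e he).2.1
        rwa [← h] at this)⟩
  have C2 := (hrec (newl M l)).mono (le_max_left t (B.card - M.card))
  have C3 := (CovE.stars hP hB (Finset.sdiff_subset (s := B) (t := M.image Prod.snd)))
  rw [c3] at C3
  have C4 := C1.seq (C2.par (C3.mono (le_max_right t (B.card - M.card))) hAB)
  refine (C4.weaken (Finset.Subset.refl _) ?_).mono (by omega)
  rintro x y ⟨hx, hy, hxy, h1, h2⟩
  rcases Finset.mem_union.mp hx with hxA | hxB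
  · rcases Finset.mem_union.mp hy with hyA | hyB
    · -- both in `A`
      have h3 : sl x y < newl M l y := by
        by_cases hym : ∃ z, (y, z) ∈ M
        · obtain ⟨z, hz⟩ := hym
          rw [newl_of hz hM2]
          exact h2.trans (hM1 _ hz).2.2.2.2.2.1
        · rw [newl_of_not hym]; exact h2
      by_cases hxm : ∃ z, (x, z) ∈ M
      · obtain ⟨z, hz⟩ := hxm
        have hzB := (hM1 _ hz).2.1
        have hxz := hAB x hxA z hzB
        have hyz := hAB y hyA z hzB
        rcases lt_trichotomy (sl x y) (sl x z) with h | h | h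
        · exact Or.inl (Or.inl ⟨(x, z), hz, Or.inl ⟨rfl, hy, Or.inr (det_neg_right hxz hxy h)⟩⟩)
        · exact absurd h (sl_ne hP hX (hS hx) (hS hy) (hB hzB) (fun e => hxy.ne (by rw [e]))
            (fun e => hxz.ne (by rw [e])) (fun e => hyz.ne (by rw [e])))
        · exact Or.inl (Or.inr (Or.inl ⟨hxA, hyA, hxy, by rwa [newl_of hz hM2], h3⟩))
      · exact Or.inl (Or.inr (Or.inl ⟨hxA, hyA, hxy, by rwa [newl_of_not hxm], h3⟩))
    · -- `x ∈ A`, `y ∈ B`
      rcases hM4 x hxA y hyB ⟨hx, hy, hxy, h1, h2⟩ with ⟨z, hz, h⟩ | ⟨w, hw, h⟩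
      · by_cases hyz : y = z
        · subst hyz
          exact Or.inl (Or.inl ⟨(x, y), hz, Or.inl ⟨rfl, hy, Or.inl rfl⟩⟩)
        · have hzB := (hM1 _ hz).2.1
          have hxz := hAB x hxA z hzB
          have hne := sl_ne hP hX (hS hx) (hS hy) (hB hzB) (fun e => hxy.ne (by rw [e]))
            (fun e => hxz.ne (by rw [e])) hyz
          exact Or.inl (Or.inl ⟨(x, z), hz, Or.inl ⟨rfl, hy,
            Or.inr (det_neg_right hxz hxy (lt_of_le_of_ne h hne))⟩⟩)
      · by_cases hxw : x = w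
        · subst hxw
          exact Or.inl (Or.inl ⟨(x, y), hw, Or.inl ⟨rfl, hy, Or.inl rfl⟩⟩)
        · have hwA := (hM1 _ hw).1
          have hwy := hAB w hwA y hyB
          have hne := sl_ne hP hX (hS hy) (hS hx) (hA hwA) (fun e => hxy.ne (by rw [e]))
            (fun e => hwy.ne (by rw [e])) hxw
          rw [sl_comm y x, sl_comm y w] at hne
          exact Or.inr (Or.inl ⟨(w, y), hw, Or.inr ⟨rfl, hx,
            det_pos_left hwy hxy (lt_of_le_of_ne h hne)⟩⟩)
  · rcases Finset.mem_union.mp hy with hyA | hyB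
    · exact absurd (hAB y hyA x hxB) (not_lt.mpr hxy.le)
    · -- both in `B`
      by_cases hxm : x ∈ M.image Prod.snd
      · obtain ⟨⟨w, x'⟩, he, rfl⟩ := Finset.mem_image.mp hxm
        have h5 := (hM1 _ he).2.2
        exact Or.inl (Or.inl ⟨(w, x'), he, Or.inr ⟨rfl, hy,
          det_pos_right h5.2.2.1 hxy (h5.2.2.2.2.trans h1)⟩⟩)
      · exact Or.inl (Or.inr (Or.inr ⟨Finset.mem_sdiff.mpr ⟨hxB, hxm⟩, hyB,
          fun e => hxy.ne (by rw [e])⟩))

/-- `|A|` points with thresholds: `⌊c |A|⌋ + 1` families suffice, `c = (√5 - 1) / 2` -/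
theorem level2 {P : Finset Pt} (hP : GP P) (hX : DX P) {c : ℝ} (hc0 : 0 < c)
    (hc : c ^ 2 + c = 1) :
    ∀ (m : ℕ) (A : Finset Pt), A ⊆ P → A.card = m → ∀ l, CovE A (E2 A l) (⌊c * m⌋₊ + 1) := by
  classical
  have hc1 : c < 1 := by nlinarith
  intro m
  induction m using Nat.strong_induction_on with
  | _ m ih =>
    intro A hA hAm l
    rcases Nat.eq_zero_or_pos m with h0 | hm
    · rw [h0, Finset.card_eq_zero] at hAm
      subst hAm
      exact (CovE.empty _ (by rintro x y ⟨h, -⟩; simp at h)).mono (by omega)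
    have hm' : (0 : ℝ) < m := by exact_mod_cast hm
    set a : ℕ := ⌊(1 - c) * m⌋₊ with ha
    have ha1 : (a : ℝ) ≤ (1 - c) * m := Nat.floor_le (by nlinarith)
    have ha2 : (1 - c) * m < a + 1 := Nat.lt_floor_add_one _
    have ham : a < m := by
      have : (a : ℝ) < m := by nlinarith
      exact_mod_cast this
    obtain ⟨T, hT, hTc, hTl⟩ := low_part A a (by omega)
    have hTB : ∀ p ∈ T, ∀ q ∈ A \ T, p.1 < q.1 := by
      intro p hp q hq
      have hq' := Finset.mem_sdiff.mp hq
      refine lt_of_le_of_ne (hTl p hp q hq) (hX p (hA (hT hp)) q (hA hq'.1) ?_)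
      rintro rfl
      exact hq'.2 hp
    have h1 := step hP hX (hT.trans hA) (Finset.sdiff_subset.trans hA) hTB l (⌊c * a⌋₊ + 1)
      (fun l' => ih a ham T (hT.trans hA) hTc l')
    rw [Finset.union_sdiff_of_subset hT, Finset.card_sdiff_of_subset hT, hTc, hAm] at h1
    refine h1.mono (max_le ?_ ?_)
    · have : a + ⌊c * a⌋₊ ≤ ⌊c * m⌋₊ := by
        apply Nat.le_floor
        push_cast
        have h2 : (⌊c * a⌋₊ : ℝ) ≤ c * a := Nat.floor_le (by positivity)
        nlinarith
      omega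
    · have : m - a - 1 ≤ ⌊c * m⌋₊ := by
        apply Nat.le_floor
        rw [Nat.cast_sub (by omega), Nat.cast_sub (by omega)]
        push_cast
        nlinarith
      omega

end Pool.Agent.Helper4.CFE
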