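import Mathlib
import Pool.Agent.Helper4.CFE.Rec

/-!
The complete geometric graph: a stable matching between the two halves of the point set.
-/

set_option autoImplicit false

namespace Pool.Agent.Helper4.CFE

open Pool.Agent.Helper60.CrossFree

theorem Cr_map (φ : Pt →ₗ[ℝ] Pt) (hφ : Function.Injective φ) {p q r s : Pt} (h : Cr p q r s) :
    Cr (φ p) (φ q) (φ r) (φ s) := by
  obtain ⟨x, ⟨a, b, ha, hb, hab, rfl⟩, ⟨c, d, hc, hd, hcd, hx⟩, h3⟩ := h
  refine ⟨φ (a • p + b • q), ⟨a, b, ha, hb, hab, by simp⟩, ⟨c, d, hc, hd, hcd, ?_⟩, ?_⟩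
  · rw [← hx]; simp
  · rintro ⟨h1, h2⟩
    exact h3 ⟨h1.imp (fun h => hφ h) (fun h => hφ h), h2.imp (fun h => hφ h) (fun h => hφ h)⟩

theorem NonCr_map (φ : Pt →ₗ[ℝ] Pt) (hφ : Function.Injective φ) {G : Pt → Pt → Prop}
    (h : NonCr G) (S : Finset Pt) : NonCr (fun u v => u ∈ S ∧ v ∈ S ∧ G (φ u) (φ v)) := by
  rintro u v u' v' ⟨-, -, hu⟩ ⟨-, -, hu'⟩
  rcases h _ _ _ _ hu hu' with h | h
  · left
    rcases Sym2.eq_iff.mp h with ⟨h1, h2⟩ | ⟨h1, h2⟩
    · rw [hφ h1, hφ h2]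
    · rw [hφ h1, hφ h2]; exact Sym2.eq_swap
  · right
    exact fun hc => h (Cr_map φ hφ hc)

theorem CovE.pull [DecidableEq Pt] (φ : Pt →ₗ[ℝ] Pt) (hφ : Function.Injective φ) {S : Finset Pt}
    {R : Pt → Pt → Prop} {k : ℕ} (h : CovE (S.image φ) R k) :
    CovE S (fun x y => x ∈ S ∧ y ∈ S ∧ R (φ x) (φ y)) k := by
  obtain ⟨G, h1, h2, h3⟩ := h
  refine ⟨fun i u v => u ∈ S ∧ v ∈ S ∧ G i (φ u) (φ v), fun i => NonCr_map φ hφ (h1 i) S,
    fun i u v h => ⟨h.1, h.2.1⟩, ?_⟩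
  rintro x y ⟨hx, hy, h⟩
  obtain ⟨i, hi⟩ := h3 _ _ h
  exact ⟨i, hi.imp (fun h => ⟨hx, hy, h⟩) (fun h => ⟨hy, hx, h⟩)⟩

theorem Cov_of_CovE {P S : Finset Pt} {R : Pt → Pt → Prop} {k : ℕ} (h : CovE S R k)
    (hR : ∀ x ∈ P, ∀ y ∈ P, x.1 < y.1 → R x y ∨ R y x) (hX : DX P) : Cov P k := by
  obtain ⟨G, h1, -, h3⟩ := h
  refine ⟨G, h1, ?_⟩
  have key : ∀ x ∈ P, ∀ y ∈ P, x.1 < y.1 → ∃ i, G i x y ∨ G i y x := by
    intro x hx y hy hxy
    rcases hR x hx y hy hxy with h | h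
    · exact h3 x y h
    · obtain ⟨i, hi⟩ := h3 y x h
      exact ⟨i, hi.symm⟩
  intro u hu v hv huv
  rcases lt_or_gt_of_ne (hX u hu v hv huv) with h | h
  · exact key u hu v hv h
  · obtain ⟨i, hi⟩ := key v hv u hu h
    exact ⟨i, hi.symm⟩

/-- the reflection in the origin -/
def ng : Pt →ₗ[ℝ] Pt := -LinearMap.id

theorem ng_apply (p : Pt) : ng p = -p := rfl

theorem ng_inj : Function.Injective ng := fun p q h => by
  rw [ng_apply, ng_apply] at h
  exact neg_injective h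

theorem sl_neg (p q : Pt) : sl (-p) (-q) = sl p q := by
  unfold sl
  simp only [Prod.fst_neg, Prod.snd_neg]
  rw [show -q.2 - -p.2 = -(q.2 - p.2) by ring, show -q.1 - -p.1 = -(q.1 - p.1) by ring,
    neg_div_neg_eq]

theorem det_neg3 (p q r : Pt) : det (-p) (-q) (-r) = det p q r := by
  unfold det
  simp only [Prod.fst_neg, Prod.snd_neg]
  ring

/-- the mirror image of `E2`: pairs of points, each below the line through the other -/
theorem level2' {P : Finset Pt} (hP : GP P) (hX : DX P) {c : ℝ} (hc0 : 0 < c)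
    (hc : c ^ 2 + c = 1) (B : Finset Pt) (hB : B ⊆ P) (l : Pt → ℝ) :
    CovE B (fun x y => x ∈ B ∧ y ∈ B ∧ x.1 < y.1 ∧ l y < sl x y ∧ sl x y < l x)
      (⌊c * B.card⌋₊ + 1) := by
  classical
  have hP' : GP (P.image ng) := by
    intro p hp q hq r hr h1 h2 h3
    obtain ⟨p, hp', rfl⟩ := Finset.mem_image.mp hp
    obtain ⟨q, hq', rfl⟩ := Finset.mem_image.mp hq
    obtain ⟨r, hr', rfl⟩ := Finset.mem_image.mp hr
    rw [ng_apply, ng_apply, ng_apply, det_neg3]
    exact hP p hp' q hq' r hr' (fun h => h1 (by rw [h])) (fun h => h2 (by rw [h]))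
      (fun h => h3 (by rw [h]))
  have hX' : DX (P.image ng) := by
    intro p hp q hq h
    obtain ⟨p, hp', rfl⟩ := Finset.mem_image.mp hp
    obtain ⟨q, hq', rfl⟩ := Finset.mem_image.mp hq
    intro h'
    have h2 : -p.1 = -q.1 := h'
    exact hX p hp' q hq' (fun h3 => h (by rw [h3])) (neg_injective h2)
  have h1 := level2 hP' hX' hc0 hc _ (B.image ng) (Finset.image_subset_image hB)
    (Finset.card_image_of_injective B ng_inj) (fun p => l (-p))
  refine (h1.pull ng ng_inj).weaken (Finset.Subset.refl _) ?_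
  rintro x y ⟨hx, hy, hxy, h2, h3⟩
  refine Or.inr ⟨hy, hx, Finset.mem_image_of_mem _ hy, Finset.mem_image_of_mem _ hx, ?_, ?_, ?_⟩
  · rw [ng_apply, ng_apply, Prod.fst_neg, Prod.fst_neg]; exact neg_lt_neg hxy
  · show l (-(ng y)) < sl (ng y) (ng x)
    rw [ng_apply, ng_apply, sl_neg, neg_neg, sl_comm y x]; exact h2
  · show sl (ng y) (ng x) < l (-(ng x))
    rw [ng_apply, ng_apply, sl_neg, neg_neg, sl_comm y x]; exact h3

theorem level1 {P : Finset Pt} (hP : GP P) (hX : DX P) {c : ℝ} (hc0 : 0 < c)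
    (hc : c ^ 2 + c = 1) (h : ℕ) (hh : P.card = 2 * h) : Cov P (h + (⌊c * h⌋₊ + 1)) := by
  classical
  obtain ⟨A, hA, hAc, hAl⟩ := low_part P h (by omega)
  set B := P \ A with hBdef
  have hB : B ⊆ P := Finset.sdiff_subset
  have hBc : B.card = h := by rw [Finset.card_sdiff_of_subset hA]; omega
  have hAB : ∀ p ∈ A, ∀ q ∈ B, p.1 < q.1 := by
    intro p hp q hq
    have hq' := Finset.mem_sdiff.mp hq
    refine lt_of_le_of_ne (hAl p hp q hq) (hX p (hA hp) q hq'.1 ?_)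
    rintro rfl
    exact hq'.2 hp
  obtain ⟨M, hM1, hM2, hM3, hM4⟩ := greedy (fun _ _ => True) sl A.card A B rfl
  have s1 : M.image Prod.fst ⊆ A := by
    intro x hx
    obtain ⟨e, he, rfl⟩ := Finset.mem_image.mp hx
    exact (hM1 e he).1
  have s2 : M.image Prod.snd ⊆ B := by
    intro x hx
    obtain ⟨e, he, rfl⟩ := Finset.mem_image.mp hx
    exact (hM1 e he).2.1
  have c1 : M.card ≤ h := by
    rw [← card_image_fst hM2, ← hAc]
    exact Finset.card_le_card s1
  have hfull : M.card = h := by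
    by_contra hne
    have hlt : M.card < h := lt_of_le_of_ne c1 hne
    obtain ⟨a, ha, ha'⟩ := Finset.exists_mem_notMem_of_card_lt_card
      (s := M.image Prod.fst) (t := A) (by rw [card_image_fst hM2, hAc]; exact hlt)
    obtain ⟨b, hb, hb'⟩ := Finset.exists_mem_notMem_of_card_lt_card
      (s := M.image Prod.snd) (t := B) (by rw [card_image_snd hM3, hBc]; exact hlt)
    rcases hM4 a ha b hb trivial with ⟨b', h1, -⟩ | ⟨a', h1, -⟩
    · exact ha' (Finset.mem_image.mpr ⟨_, h1, rfl⟩)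
    · exact hb' (Finset.mem_image.mpr ⟨_, h1, rfl⟩)
  have e1 : M.image Prod.fst = A :=
    Finset.eq_of_subset_of_card_le s1 (by rw [card_image_fst hM2, hfull, hAc])
  have e2 : M.image Prod.snd = B :=
    Finset.eq_of_subset_of_card_le s2 (by rw [card_image_snd hM3, hfull, hBc])
  have mA : ∀ x ∈ A, ∃ z, (x, z) ∈ M := by
    intro x hx
    rw [← e1] at hx
    obtain ⟨⟨x, z⟩, he, rfl⟩ := Finset.mem_image.mp hx
    exact ⟨z, he⟩
  have mB : ∀ x ∈ B, ∃ w, (w, x) ∈ M := by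
    intro x hx
    rw [← e2] at hx
    obtain ⟨⟨w, x⟩, he, rfl⟩ := Finset.mem_image.mp hx
    exact ⟨w, he⟩
  choose! fa hfa using mA
  choose! fb hfb using mB
  have fa_mem : ∀ x ∈ A, fa x ∈ B := fun x hx => (hM1 _ (hfa x hx)).2.1
  have fb_mem : ∀ x ∈ B, fb x ∈ A := fun x hx => (hM1 _ (hfb x hx)).1
  have C1 := CovE.dstars hP (Finset.Subset.refl P) M fun e he =>
    ⟨hA (hM1 e he).1, hB (hM1 e he).2.1, fun h => lt_irrefl e.1.1 (by
        have := hAB e.1 (hM1 e he).1 e.2 (hM1 e he).2.1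
        rwa [← h] at this)⟩
  have CA := level2 hP hX hc0 hc h A hA hAc (fun x => sl x (fa x))
  have CB := level2' hP hX hc0 hc B hB (fun x => sl (fb x) x)
  rw [hBc] at CB
  have hPeq : A ∪ B = P := Finset.union_sdiff_of_subset hA
  have C2 := CA.par CB hAB
  rw [hPeq] at C2
  rw [hfull] at C1
  refine Cov_of_CovE (C1.seq C2) ?_ hX
  intro x hx y hy hxy
  rw [← hPeq] at hx hy
  rcases Finset.mem_union.mp hx with hxA | hxB
  · rcases Finset.mem_union.mp hy with hyA | hyB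
    · -- both in `A`
      have hxz := hAB x hxA (fa x) (fa_mem x hxA)
      have hyz := hAB y hyA (fa x) (fa_mem x hxA)
      have hyw := hAB y hyA (fa y) (fa_mem y hyA)
      have hxw := hAB x hxA (fa y) (fa_mem y hyA)
      rcases lt_trichotomy (sl x y) (sl x (fa x)) with h1 | h1 | h1
      · exact Or.inl (Or.inl ⟨_, hfa x hxA, Or.inl ⟨rfl, hA hyA, Or.inr
          (det_neg_right hxz hxy h1)⟩⟩)
      · exact absurd h1 (sl_ne hP hX (hA hxA) (hA hyA) (hB (fa_mem x hxA))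
          (fun e => hxy.ne (by rw [e])) (fun e => hxz.ne (by rw [← e]))
          (fun e => hyz.ne (by rw [← e])))
      · rcases lt_trichotomy (sl x y) (sl y (fa y)) with h2 | h2 | h2
        · exact Or.inl (Or.inr (Or.inl ⟨hxA, hyA, hxy, h1, h2⟩))
        · rw [sl_comm x y] at h2
          exact absurd h2 (sl_ne hP hX (hA hyA) (hA hxA) (hB (fa_mem y hyA))
            (fun e => hxy.ne (by rw [e])) (fun e => hyw.ne (by rw [← e]))
            (fun e => hxw.ne (by rw [← e])))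
        · exact Or.inr (Or.inl ⟨_, hfa y hyA, Or.inl ⟨rfl, hA hxA, Or.inr
            (det_neg_left hyw hxy h2)⟩⟩)
    · -- `x ∈ A`, `y ∈ B`
      rcases hM4 x hxA y hyB trivial with ⟨z, hz, h1⟩ | ⟨w, hw, h1⟩
      · by_cases hyz : y = z
        · subst hyz
          exact Or.inl (Or.inl ⟨(x, y), hz, Or.inl ⟨rfl, hB hyB, Or.inl rfl⟩⟩)
        · have hzB := (hM1 _ hz).2.1
          have hxz := hAB x hxA z hzB
          have hne := sl_ne hP hX (hA hxA) (hB hyB) (hB hzB) (fun e => hxy.ne (by rw [e]))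
            (fun e => hxz.ne (by rw [e])) hyz
          exact Or.inl (Or.inl ⟨(x, z), hz, Or.inl ⟨rfl, hB hyB,
            Or.inr (det_neg_right hxz hxy (lt_of_le_of_ne h1 hne))⟩⟩)
      · by_cases hxw : x = w
        · subst hxw
          exact Or.inl (Or.inl ⟨(x, y), hw, Or.inl ⟨rfl, hB hyB, Or.inl rfl⟩⟩)
        · have hwA := (hM1 _ hw).1
          have hwy := hAB w hwA y hyB
          have hne := sl_ne hP hX (hB hyB) (hA hxA) (hA hwA) (fun e => hxy.ne (by rw [e]))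
            (fun e => hwy.ne (by rw [e])) hxw
          rw [sl_comm y x, sl_comm y w] at hne
          exact Or.inr (Or.inl ⟨(w, y), hw, Or.inr ⟨rfl, hA hxA,
            det_pos_left hwy hxy (lt_of_le_of_ne h1 hne)⟩⟩)
  · rcases Finset.mem_union.mp hy with hyA | hyB
    · exact absurd (hAB y hyA x hxB) (not_lt.mpr hxy.le)
    · -- both in `B`
      have hwx := hAB (fb x) (fb_mem x hxB) x hxB
      have hwy := hAB (fb x) (fb_mem x hxB) y hyB
      have hvy := hAB (fb y) (fb_mem y hyB) y hyB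
      have hvx := hAB (fb y) (fb_mem y hyB) x hxB
      rcases lt_trichotomy (sl (fb x) x) (sl x y) with h1 | h1 | h1
      · exact Or.inl (Or.inl ⟨_, hfb x hxB, Or.inr ⟨rfl, hB hyB, det_pos_right hwx hxy h1⟩⟩)
      · rw [sl_comm (fb x) x] at h1
        exact absurd h1 (sl_ne hP hX (hB hxB) (hA (fb_mem x hxB)) (hB hyB)
          (fun e => hwx.ne (by rw [← e])) (fun e => hxy.ne (by rw [e]))
          (fun e => hwy.ne (by rw [e])))
      · rcases lt_trichotomy (sl x y) (sl (fb y) y) with h2 | h2 | h2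
        · exact Or.inr (Or.inl ⟨_, hfb y hyB, Or.inr ⟨rfl, hB hxB, det_pos_left hvy hxy h2⟩⟩)
        · rw [sl_comm x y, sl_comm (fb y) y] at h2
          exact absurd h2 (sl_ne hP hX (hB hyB) (hB hxB) (hA (fb_mem y hyB))
            (fun e => hxy.ne (by rw [e])) (fun e => hvy.ne (by rw [← e]))
            (fun e => hvx.ne (by rw [← e])))
        · exact Or.inl (Or.inr (Or.inr ⟨hxB, hyB, hxy, h2, h1⟩))

end Pool.Agent.Helper4.CFE
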