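import Mathlib
import Pool.Agent.Helper4.CFE.Level1

/-!
Removing the assumption of distinct first coordinates by a shear map.
-/

set_option autoImplicit false

namespace Pool.Agent.Helper4.CFE

open Pool.Agent.Helper60.CrossFree

/-- the shear map -/
def sh (t : ℝ) : Pt →ₗ[ℝ] Pt :=
  (LinearMap.fst ℝ ℝ ℝ + t • LinearMap.snd ℝ ℝ ℝ).prod (LinearMap.snd ℝ ℝ ℝ)

theorem sh_apply (t : ℝ) (p : Pt) : sh t p = (p.1 + t * p.2, p.2) := by
  simp [sh]

theorem sh_inj (t : ℝ) : Function.Injective (sh t) := by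
  intro p q h
  rw [sh_apply, sh_apply] at h
  have h1 := congrArg Prod.fst h
  have h2 := congrArg Prod.snd h
  simp only at h1 h2
  rw [h2] at h1
  exact Prod.ext (by linarith) h2

theorem det_sh (t : ℝ) (p q r : Pt) : det (sh t p) (sh t q) (sh t r) = det p q r := by
  unfold det
  simp only [sh_apply]
  ring

theorem GP_sh [DecidableEq Pt] {P : Finset Pt} (hP : GP P) (t : ℝ) : GP (P.image (sh t)) := by
  intro p hp q hq r hr h1 h2 h3
  obtain ⟨p, hp', rfl⟩ := Finset.mem_image.mp hp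
  obtain ⟨q, hq', rfl⟩ := Finset.mem_image.mp hq
  obtain ⟨r, hr', rfl⟩ := Finset.mem_image.mp hr
  rw [det_sh]
  exact hP p hp' q hq' r hr' (fun h => h1 (by rw [h])) (fun h => h2 (by rw [h]))
    (fun h => h3 (by rw [h]))

theorem exists_shear [DecidableEq Pt] (P : Finset Pt) : ∃ t : ℝ, DX (P.image (sh t)) := by
  classical
  obtain ⟨t, ht⟩ := Infinite.exists_notMem_finset
    ((P ×ˢ P).image fun e : Pt × Pt => -(e.1.1 - e.2.1) / (e.1.2 - e.2.2))
  refine ⟨t, ?_⟩
  intro p hp q hq hne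
  obtain ⟨p, hp', rfl⟩ := Finset.mem_image.mp hp
  obtain ⟨q, hq', rfl⟩ := Finset.mem_image.mp hq
  intro h
  rw [sh_apply, sh_apply] at h
  simp only at h
  by_cases h2 : p.2 = q.2
  · apply hne
    rw [h2] at h
    rw [sh_apply, sh_apply, h2, h]
  · apply ht
    refine Finset.mem_image.mpr ⟨(p, q), Finset.mem_product.mpr ⟨hp', hq'⟩, ?_⟩
    have h3 : p.2 - q.2 ≠ 0 := sub_ne_zero.mpr h2
    simp only
    rw [div_eq_iff h3]
    linarith

theorem Cov_pull [DecidableEq Pt] {φ : Pt →ₗ[ℝ] Pt} (hφ : Function.Injective φ) {P : Finset Pt}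
    {k : ℕ} (h : Cov (P.image φ) k) : Cov P k := by
  obtain ⟨G, h1, h2⟩ := h
  refine ⟨fun i u v => u ∈ P ∧ v ∈ P ∧ G i (φ u) (φ v), fun i => NonCr_map φ hφ (h1 i) P, ?_⟩
  intro u hu v hv huv
  obtain ⟨i, hi⟩ := h2 _ (Finset.mem_image_of_mem φ hu) _ (Finset.mem_image_of_mem φ hv)
    (fun h => huv (hφ h))
  exact ⟨i, hi.imp (fun h => ⟨hu, hv, h⟩) (fun h => ⟨hv, hu, h⟩)⟩

/-- The complete geometric graph on `n` points is covered by
`⌊n/2⌋ + ⌊c ⌊n/2⌋⌋ + 1 + (n mod 2)` crossing-free families, `c = (√5 - 1) / 2`. -/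
theorem cov_golden {P : Finset Pt} (hP : GP P) {c : ℝ} (hc0 : 0 < c) (hc : c ^ 2 + c = 1) :
    Cov P (P.card / 2 + (⌊c * (P.card / 2 : ℕ)⌋₊ + 1) + P.card % 2) := by
  classical
  have even : ∀ (Q : Finset Pt) (h : ℕ), GP Q → Q.card = 2 * h →
      Cov Q (h + (⌊c * h⌋₊ + 1)) := by
    intro Q h hQ hh
    obtain ⟨t, ht⟩ := exists_shear Q
    exact Cov_pull (sh_inj t) (level1 (GP_sh hQ t) ht hc0 hc h
      (by rw [Finset.card_image_of_injective _ (sh_inj t), hh]))
  rcases Nat.mod_two_eq_zero_or_one P.card with h0 | h1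
  · have := even P (P.card / 2) hP (by omega)
    rw [h0]
    exact this
  · have hne : P.Nonempty := Finset.card_pos.mp (by omega)
    obtain ⟨x, hx⟩ := hne
    have hQ : GP (P.erase x) := fun p hp q hq r hr =>
      hP p (Finset.mem_of_mem_erase hp) q (Finset.mem_of_mem_erase hq) r
        (Finset.mem_of_mem_erase hr)
    have h2 := even (P.erase x) (P.card / 2) hQ (by rw [Finset.card_erase_of_mem hx]; omega)
    have h3 := Cov_extend hP (Finset.erase_subset x P) h2
    rw [Finset.card_erase_of_mem hx] at h3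
    have e : P.card - (P.card - 1) = 1 := by omega
    rw [e] at h3
    rw [h1]
    exact h3

end Pool.Agent.Helper4.CFE
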